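import Pool.Agent.H76.HMS.HullDefs

/-!
# HMS box 5, module HCL: scaling to integers
-/

set_option autoImplicit false

namespace Pool.HMS

open TMLib Finset

theorem HCL_nat (v : Vec) : ∃ N : ℕ, 0 < N ∧ clr v = (N : ℚ) ∧ ∀ q ∈ v, q.den ∣ N := by
  induction v with
  | nil => exact ⟨1, Nat.one_pos, by simp [clr], by simp⟩
  | cons q v ih =>
    obtain ⟨N, h1, h2, h3⟩ := ih
    refine ⟨q.den * N, Nat.mul_pos q.den_pos h1, ?_, ?_⟩
    · have h4 : clr (q :: v) = (q.den : ℚ) * clr v := by simp [clr]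
      rw [h4, h2]
      push_cast
      rfl
    · intro r hr
      rcases List.mem_cons.1 hr with rfl | hr
      · exact Dvd.intro _ rfl
      · exact (h3 r hr).mul_left _

theorem hcl_thm : S_HCL := by
  intro v
  obtain ⟨N, h1, h2, h3⟩ := HCL_nat v
  refine ⟨?_, ?_, ?_, ?_⟩
  · rw [h2]
    exact_mod_cast h1
  · exact ⟨N, by rw [h2]; simp⟩
  · intro i
    unfold fn
    by_cases hi : i < v.length
    · rw [List.getD_eq_getElem _ _ hi]
      obtain ⟨k, hk⟩ := h3 _ (List.getElem_mem hi)
      refine ⟨k * (v[i]).num, ?_⟩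
      rw [h2, hk]
      push_cast
      rw [mul_comm ((v[i]).den : ℚ) (k : ℚ), mul_assoc, Rat.den_mul_eq_num]
    · rw [List.getD_eq_default _ _ (not_lt.1 hi)]
      exact ⟨0, by simp⟩
  · intro i
    unfold fn
    by_cases hi : i < v.length
    · rw [List.getD_eq_getElem _ _ (by simpa using hi), List.getElem_map,
        List.getD_eq_getElem _ _ hi]
    · rw [List.getD_eq_default _ _ (by simpa using not_lt.1 hi),
        List.getD_eq_default _ _ (not_lt.1 hi), mul_zero]

end Pool.HMS
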