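import Pool.Agent.H76.HMS.ExStmts

/-!
# HMS box 3, module EWL: the worklist search
-/

set_option autoImplicit false

namespace Pool.HMS

open TMLib Finset

theorem EWL_out {ν ω : Type} (ex : ν → List ν × List ω) (x : ν) (v : ω) :
    Out ex x v ↔ v ∈ (ex x).2 ∨ ∃ y ∈ (ex x).1, Out ex y v := by
  constructor
  · intro h
    cases h with
    | here h => exact Or.inl h
    | there h1 h2 => exact Or.inr ⟨_, h1, h2⟩
  · rintro (h | ⟨y, h1, h2⟩)
    · exact Out.here h
    · exact Out.there h1 h2

theorem EWL_aux {ν ω : Type} (ex : ν → List ν × List ω) (Inv : ν → Prop) (c : ν → ℕ)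
    (h : ∀ x, Inv x → (∀ y ∈ (ex x).1, Inv y) ∧ (((ex x).1.map c).sum + 1 ≤ c x) ∧
      (ex x).2.length ≤ 1) (n : ℕ) :
    ∀ (l : List ν) (acc : List ω), (∀ y ∈ l, Inv y) → (l.map c).sum ≤ n →
      ((wstep ex)^[n] (l, acc)).1 = [] ∧
      (∀ v, v ∈ ((wstep ex)^[n] (l, acc)).2 ↔ v ∈ acc ∨ ∃ y ∈ l, Out ex y v) ∧
      ((wstep ex)^[n] (l, acc)).2.length ≤ acc.length + (l.map c).sum := by
  induction n with
  | zero =>
    intro l acc hl hs
    cases l with
    | nil => simp
    | cons x r =>
      exfalso
      have h1 := (h x (hl x (by simp))).2.1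
      simp only [List.map_cons, List.sum_cons] at hs
      omega
  | succ n ih =>
    intro l acc hl hs
    rw [Function.iterate_succ_apply]
    cases l with
    | nil =>
      have h1 : wstep ex (([] : List ν), acc) = ([], acc) := rfl
      rw [h1]
      have h2 := ih [] acc (by simp) (by simp)
      simpa using h2
    | cons x r =>
      have h1 : wstep ex (x :: r, acc) = ((ex x).1 ++ r, (ex x).2 ++ acc) := rfl
      rw [h1]
      obtain ⟨h2, h3, h4⟩ := h x (hl x (by simp))
      simp only [List.map_cons, List.sum_cons] at hs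
      obtain ⟨i1, i2, i3⟩ := ih ((ex x).1 ++ r) ((ex x).2 ++ acc)
        (by
          intro y hy
          rw [List.mem_append] at hy
          rcases hy with hy | hy
          · exact h2 y hy
          · exact hl y (by simp [hy]))
        (by rw [List.map_append, List.sum_append]; omega)
      refine ⟨i1, fun v => ?_, ?_⟩
      · rw [i2 v]
        simp only [List.mem_append, List.mem_cons, exists_eq_or_imp]
        rw [EWL_out ex x v]
        constructor
        · rintro ((h5 | h5) | ⟨y, h5 | h5, h6⟩)
          · exact Or.inr (Or.inl (Or.inl h5))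
          · exact Or.inl h5
          · exact Or.inr (Or.inl (Or.inr ⟨y, h5, h6⟩))
          · exact Or.inr (Or.inr ⟨y, h5, h6⟩)
        · rintro (h5 | (h5 | ⟨y, h5, h6⟩) | ⟨y, h5, h6⟩)
          · exact Or.inl (Or.inr h5)
          · exact Or.inl (Or.inl h5)
          · exact Or.inr ⟨y, Or.inl h5, h6⟩
          · exact Or.inr ⟨y, Or.inr h5, h6⟩
      · rw [List.map_append, List.sum_append, List.length_append] at i3
        rw [List.map_cons, List.sum_cons]
        omega

theorem ewl_thm : S_EWL := by
  intro ν ω ex Inv c h x n hx hn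
  obtain ⟨h1, h2, h3⟩ := EWL_aux ex Inv c h n [x] [] (by simpa using hx) (by simpa using hn)
  refine ⟨h1, fun v => ?_, ?_⟩
  · rw [h2 v]
    simp
  · simpa using h3

end Pool.HMS
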