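import Pool.Agent.H48.HMS.Stm

/-!
# HMS, module MIC: the merged instance as membership in an integer cone
-/

set_option autoImplicit false

namespace Pool.HMS

open TMLib Finset

theorem MIC_ddp_map {α β : Type} [DecidableEq α] [DecidableEq β] (f : α → β)
    (hf : Function.Injective f) (l : List α) : ddp (l.map f) = (ddp l).map f := by
  have key : ∀ (l acc : List α),
      (l.map f).foldl (fun acc b => if b ∈ acc then acc else acc ++ [b]) (acc.map f) =
        (l.foldl (fun acc a => if a ∈ acc then acc else acc ++ [a]) acc).map f := by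
    intro l
    induction l with
    | nil => intro acc; rfl
    | cons a l ih =>
      intro acc
      rw [List.map_cons, List.foldl_cons, List.foldl_cons, ← ih]
      congr 1
      by_cases h : a ∈ acc
      · rw [if_pos h, if_pos (List.mem_map_of_mem h)]
      · rw [if_neg h, if_neg (fun h' => h ((List.mem_map_of_injective hf).1 h')), List.map_append]
        rfl
  exact key l []

theorem MIC_tmsQ (l : List (ℕ × ℕ)) : tmsQ (lQ l) = (tms l).map (fun a : ℕ => (a : ℚ)) := by
  unfold tmsQ tms lQ
  have h1 : (l.map fun q : ℕ × ℕ => ((q.1 : ℚ), (q.2 : ℚ))).map Prod.fst =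
      (l.map Prod.fst).map (fun a : ℕ => (a : ℚ)) := by
    simp [List.map_map, Function.comp_def]
  rw [h1, MIC_ddp_map _ Nat.cast_injective, List.filter_map]
  congr 1
  apply List.filter_congr
  intro a _
  simp

theorem MIC_cntQ (l : List (ℕ × ℕ)) (a : ℕ) : cntQ (lQ l) (a : ℚ) = (cnt l a : ℚ) := by
  unfold cntQ cnt lQ
  rw [List.filter_map, List.map_map, Nat.cast_list_sum, List.map_map]
  congr 1
  have h1 : (l.filter ((fun q : ℚ × ℚ => decide (q.1 = (a : ℚ))) ∘
      fun q : ℕ × ℕ => ((q.1 : ℚ), (q.2 : ℚ)))) = l.filter fun q => decide (q.1 = a) := by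
    apply List.filter_congr
    intro q _
    simp
  rw [h1]
  rfl

theorem MIC_sum {M : Type*} [AddCommMonoid M] (L : List ℕ) (f : ℕ → M) :
    (L.map f).sum = ∑ j ∈ range L.length, f (L.getD j 0) := by
  induction L with
  | nil => simp
  | cons a L ih =>
    rw [List.map_cons, List.sum_cons, List.length_cons, sum_range_succ', ih, add_comm]
    simp

theorem MIC_fn_y (m : ℕ) (l : List (ℕ × ℕ)) (j : ℕ) (hj : j < (tms l).length) :
    fn (yQ m (lQ l)) j = (cnt l ((tms l).getD j 0) : ℚ) := by
  unfold fn yQ
  rw [MIC_tmsQ, List.map_map, List.getD_append _ _ _ _ (by simpa using hj)]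
  rw [List.getD_eq_getElem _ _ (by simpa using hj), List.getElem_map,
    List.getD_eq_getElem _ _ hj]
  exact MIC_cntQ l _

theorem MIC_fn_y_last (m : ℕ) (l : List (ℕ × ℕ)) :
    fn (yQ m (lQ l)) (tms l).length = (m : ℚ) := by
  unfold fn yQ
  rw [MIC_tmsQ, List.map_map, List.getD_append_right _ _ _ _ (by simp)]
  simp

theorem MIC_fn_y_big (m : ℕ) (l : List (ℕ × ℕ)) (j : ℕ) (hj : (tms l).length < j) :
    fn (yQ m (lQ l)) j = 0 := by
  unfold fn yQ
  rw [MIC_tmsQ, List.map_map, List.getD_eq_default]
  simpa using hj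

theorem MIC_unit (D i : ℕ) (hi : i < D) (x : ℕ → ℚ) :
    aff D (fn ((List.range (D + 1)).map fun j => if j = i + 1 then (1 : ℚ) else 0)) x = x i := by
  have h1 : ∀ k, k < D + 1 →
      fn ((List.range (D + 1)).map fun j => if j = i + 1 then (1 : ℚ) else 0) k =
        if k = i + 1 then 1 else 0 := by
    intro k hk
    unfold fn
    rw [List.getD_eq_getElem _ _ (by simpa using hk), List.getElem_map, List.getElem_range]
  unfold aff
  rw [h1 0 (by omega), if_neg (by omega), zero_add]
  rw [sum_eq_single i]
  · rw [h1 (i + 1) (by omega), if_pos rfl, one_mul]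
  · intro k hk hki
    rw [mem_range] at hk
    rw [h1 (k + 1) (by omega), if_neg (by omega), zero_mul]
  · intro h
    exact absurd (mem_range.2 hi) h

theorem MIC_last (T : ℕ) (L : List ℕ) (x : ℕ → ℚ) :
    aff L.length (fn ((T : ℚ) :: (L.map fun a : ℕ => (a : ℚ)).map fun a => -a)) x =
      T - ∑ j ∈ range L.length, (L.getD j 0 : ℚ) * x j := by
  unfold aff
  have h1 : fn ((T : ℚ) :: (L.map fun a : ℕ => (a : ℚ)).map fun a => -a) 0 = T := rfl
  rw [h1, sub_eq_add_neg, ← sum_neg_distrib]
  congr 1
  apply sum_congr rfl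
  intro j hj
  rw [mem_range] at hj
  have h2 : fn ((T : ℚ) :: (L.map fun a : ℕ => (a : ℚ)).map fun a => -a) (j + 1) =
      -(L.getD j 0 : ℚ) := by
    unfold fn
    rw [List.getD_cons_succ, List.map_map, List.getD_eq_getElem _ _ (by simpa using hj),
      List.getElem_map, List.getD_eq_getElem _ _ hj]
    rfl
  rw [h2, neg_mul]

theorem MIC_mem_LP (T : ℕ) (l : List (ℕ × ℕ)) (x : ℕ → ℚ) :
    x ∈ LP (tms l).length (rowsQ T (lQ l)) ↔ Supp (tms l).length x ∧ (∀ i, IsI (x i)) ∧
      (∀ i < (tms l).length, 0 ≤ x i) ∧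
      ∑ j ∈ range (tms l).length, ((tms l).getD j 0 : ℚ) * x j ≤ T := by
  unfold LP Lat Poly rowsQ
  rw [MIC_tmsQ, List.length_map]
  simp only [Set.mem_ofPred_eq, List.mem_append, List.mem_singleton]
  constructor
  · rintro ⟨⟨h1, h2⟩, -, h3⟩
    refine ⟨h1, h2, fun i hi => ?_, ?_⟩
    · have := h3 _ (Or.inl (List.mem_map.2 ⟨i, List.mem_range.2 hi, rfl⟩))
      rwa [MIC_unit _ _ hi] at this
    · have := h3 _ (Or.inr rfl)
      rw [MIC_last] at this
      linarith
  · rintro ⟨h1, h2, h3, h4⟩
    refine ⟨⟨h1, h2⟩, h1, ?_⟩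
    rintro r (hr | rfl)
    · obtain ⟨i, hi, rfl⟩ := List.mem_map.1 hr
      rw [List.mem_range] at hi
      rw [MIC_unit _ _ hi]
      exact h3 i hi
    · rw [MIC_last]
      linarith

theorem MIC_thm (h : S_DDP) : S_MIC := by
  intro m T l
  have hnd : (tms l).Nodup := ((h ℕ).1 (l.map Prod.fst)).1.filter _
  have hlen : (tmsQ (lQ l)).length = (tms l).length := by rw [MIC_tmsQ, List.length_map]
  rw [hlen]
  set L := tms l with hL
  constructor
  · rintro ⟨X, hX1, hX2⟩
    refine ⟨m, fun i => hom L.length (fun j => if h : i < m then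
      (if j < L.length then (X ⟨i, h⟩ (L.getD j 0) : ℚ) else 0) else 0), ?_, ?_⟩
    · intro i hi
      refine ⟨_, ?_, rfl⟩
      rw [MIC_mem_LP]
      rw [← hL]
      simp only [dif_pos hi]
      refine ⟨fun j hj => ?_, fun j => ?_, fun j hj => ?_, ?_⟩
      · exact if_neg (by omega)
      · show IsI (if j < L.length then (X ⟨i, hi⟩ (L.getD j 0) : ℚ) else 0)
        split_ifs with h1
        · exact ⟨X ⟨i, hi⟩ (L.getD j 0), by simp⟩
        · exact ⟨0, by simp⟩
      · show (0 : ℚ) ≤ if j < L.length then (X ⟨i, hi⟩ (L.getD j 0) : ℚ) else 0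
        rw [if_pos hj]
        positivity
      · have h1 := hX2 ⟨i, hi⟩
        rw [MIC_sum] at h1
        calc ∑ j ∈ range L.length, (L.getD j 0 : ℚ) *
              (if j < L.length then (X ⟨i, hi⟩ (L.getD j 0) : ℚ) else 0) =
            ∑ j ∈ range L.length, ((X ⟨i, hi⟩ (L.getD j 0) * L.getD j 0 : ℕ) : ℚ) := by
              apply sum_congr rfl
              intro j hj
              rw [if_pos (mem_range.1 hj)]
              push_cast
              ring
          _ = ((∑ j ∈ range L.length, X ⟨i, hi⟩ (L.getD j 0) * L.getD j 0 : ℕ) : ℚ) := by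
              rw [Nat.cast_sum]
          _ ≤ T := by exact_mod_cast h1
    · funext j
      rw [Finset.sum_apply]
      rcases lt_trichotomy j L.length with hj | hj | hj
      · rw [MIC_fn_y m l j hj, ← hL]
        have h1 : ∀ i ∈ range m, (hom L.length (fun j => if h : i < m then
            (if j < L.length then (X ⟨i, h⟩ (L.getD j 0) : ℚ) else 0) else 0) j : ℚ) =
            if h : i < m then (X ⟨i, h⟩ (L.getD j 0) : ℚ) else 0 := by
          intro i hi
          unfold hom
          rw [if_pos hj]
          simp only [dif_pos (mem_range.1 hi), if_pos hj]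
        rw [sum_congr rfl h1, Finset.sum_range]
        simp only [Fin.is_lt, dif_pos, Fin.eta]
        rw [← Nat.cast_sum]
        have h2 : L.getD j 0 ∈ L := by
          rw [List.getD_eq_getElem _ _ hj]
          exact List.getElem_mem _
        rw [hX1 _ h2]
      · subst hj
        rw [MIC_fn_y_last m l]
        have h1 : ∀ i ∈ range m, (hom (tms l).length (fun j => if h : i < m then
            (if j < L.length then (X ⟨i, h⟩ (L.getD j 0) : ℚ) else 0) else 0) (tms l).length : ℚ) =
            1 := by
          intro i hi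
          unfold hom
          rw [if_neg (lt_irrefl _), if_pos rfl]
        rw [sum_congr rfl h1]
        simp
      · rw [MIC_fn_y_big m l j hj]
        symm
        apply sum_eq_zero
        intro i _
        unfold hom
        rw [if_neg (by omega), if_neg (by omega)]
  · rintro ⟨k, a, ha, hsum⟩
    have hex : ∀ i, i < k → ∃ x : ℕ → ℚ, x ∈ LP L.length (rowsQ T (lQ l)) ∧
        hom L.length x = a i := fun i hi => ha i hi
    have hk : k = m := by
      have h1 := congrFun hsum L.length
      rw [hL, MIC_fn_y_last m l, Finset.sum_apply] at h1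
      have h2 : ∀ i ∈ range k, a i (tms l).length = 1 := by
        intro i hi
        obtain ⟨x, -, hx⟩ := hex i (mem_range.1 hi)
        rw [← hx]
        unfold hom
        rw [if_neg (lt_irrefl _), if_pos rfl]
      rw [sum_congr rfl h2] at h1
      simp only [sum_const, card_range, nsmul_eq_mul, mul_one] at h1
      exact_mod_cast h1.symm
    subst hk
    have hnat : ∀ i : Fin k, ∀ j : ℕ, ∃ N : ℕ, j < L.length → a i j = N := by
      intro i j
      obtain ⟨x, hx, hxa⟩ := hex i i.2
      rw [hL, MIC_mem_LP] at hx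
      obtain ⟨-, h2, h3, -⟩ := hx
      obtain ⟨z, hz⟩ := h2 j
      by_cases hj : j < L.length
      · refine ⟨z.toNat, fun _ => ?_⟩
        have h4 := h3 j hj
        rw [hz] at h4
        have h5 : 0 ≤ z := by exact_mod_cast h4
        rw [← hxa]
        unfold hom
        rw [if_pos hj, hz]
        have h6 : ((z.toNat : ℤ) : ℚ) = z := by rw [Int.toNat_of_nonneg h5]
        rw [← h6]
        norm_cast
      · exact ⟨0, fun h => absurd h hj⟩
    choose N hN using hnat
    refine ⟨fun i b => N i (L.idxOf b), ?_, ?_⟩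
    · intro b hb
      have hj : L.idxOf b < L.length := List.idxOf_lt_length_iff.2 hb
      have h1 := congrFun hsum (L.idxOf b)
      rw [MIC_fn_y k l _ hj, Finset.sum_apply, ← hL, List.getD_eq_getElem _ _ hj,
        List.getElem_idxOf hj, Finset.sum_range] at h1
      have h2 : ∀ i : Fin k, a i (L.idxOf b) = (N i (L.idxOf b) : ℚ) := fun i => hN i _ hj
      simp only [h2] at h1
      exact_mod_cast h1.symm
    · intro i
      rw [MIC_sum]
      obtain ⟨x, hx, hxa⟩ := hex i i.2
      rw [hL, MIC_mem_LP, ← hL] at hx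
      obtain ⟨-, -, -, h4⟩ := hx
      have h5 : ∀ j ∈ range L.length, (L.getD j 0 : ℚ) * x j =
          ((N i (L.idxOf (L.getD j 0)) * L.getD j 0 : ℕ) : ℚ) := by
        intro j hj
        rw [mem_range] at hj
        have h6 : L.idxOf (L.getD j 0) = j := by
          rw [List.getD_eq_getElem _ _ hj]
          exact hnd.idxOf_getElem j hj
        have h7 := hN i j hj
        rw [← hxa] at h7
        unfold hom at h7
        rw [if_pos hj] at h7
        rw [h6, h7]
        push_cast
        ring
      rw [sum_congr rfl h5, ← Nat.cast_sum] at h4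
      exact_mod_cast h4

end Pool.HMS
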