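import Pool.Agent.H91.HMS.RLib

/-!
# HMS box 2, module RFLAT: the flat case
-/

set_option autoImplicit false

namespace Pool.HMS

open TMLib Finset

theorem RFLAT_const (D : ℕ) (hD : 1 ≤ D) : 1 ≤ h0 D * (wdh D : ℚ) ^ 2 := by
  have hD' : (1 : ℚ) ≤ D := by exact_mod_cast hD
  have hD0 : (D : ℚ) ≠ 0 := by positivity
  have hR : (RD D : ℚ) = 8 * (D : ℚ) ^ 3 + 1 := rfl
  have hR0 : (8 * (D : ℚ) ^ 3 + 1) ≠ 0 := by positivity
  obtain ⟨E, rfl⟩ : ∃ E, D = E + 1 := ⟨D - 1, by omega⟩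
  have hE : E + 1 - 1 = E := rfl
  have h1 : h0 (E + 1) * (wdh (E + 1) : ℚ) ^ 2 = 2 ^ (E + 2) * ((E : ℚ) + 1) := by
    unfold h0 wdh rhoD
    rw [hR, hE]
    push_cast
    push_cast at hD0 hR0
    have h2 : (E : ℚ) + 1 + 1 ≠ 0 := by positivity
    field_simp
    ring
  rw [h1]
  have h2 : (1 : ℚ) ≤ 2 ^ (E + 2) := one_le_pow₀ (by norm_num)
  have h3 : (1 : ℚ) ≤ (E : ℚ) + 1 := by push_cast at hD'; exact hD'
  nlinarith

theorem rflat_thm : S_RFLAT := by
  intro D K st X U W hD hinv hsupp hout x hx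
  have hD' : (1 : ℚ) ≤ D := by exact_mod_cast hD
  have hflat := hout.flat_spec rfl (fun i => x i - ent st.1 0 i) (by
    intro i hi
    show x i - ent st.1 0 i = 0
    rw [hsupp x hx i hi, hinv.supp 0 i hi, sub_zero])
  have h1 : ∀ k ∈ range D, ∑ c ∈ range D, (x c - ent st.1 0 c) * ent (rMat D st) c k =
      aff D (ent st.2.1 (k + 1)) x := by
    intro k hk
    rw [mem_range] at hk
    have h2 : aff D (ent st.2.1 (k + 1)) (ent st.1 0) = 0 := by
      rw [hinv.dual (k + 1) (by omega) 0 (by omega), if_neg (by omega)]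
    have h3 := aff_sub D (ent st.2.1 (k + 1)) x (ent st.1 0)
    rw [h2, sub_zero] at h3
    rw [h3]
    unfold lin
    apply sum_congr rfl
    intro c hc
    rw [mem_range] at hc
    unfold rMat
    rw [ent_tabM, if_pos ⟨hc, hk⟩, mul_comm]
  have h4 : ∑ k ∈ range D, (∑ c ∈ range D, (x c - ent st.1 0 c) * ent (rMat D st) c k) ^ 2 ≤
      st.2.2 ^ 2 := by
    have h5 : ∀ k ∈ range D, 0 ≤ aff D (ent st.2.1 (k + 1)) x := by
      intro k hk
      rw [mem_range] at hk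
      exact hinv.sub x hx (k + 1) (by omega)
    have h6 : ∑ k ∈ range D, aff D (ent st.2.1 (k + 1)) x ≤ st.2.2 := by
      have h7 := hinv.one x
      rw [sum_range_succ'] at h7
      have h8 := hinv.sub x hx 0 (by omega)
      linarith
    calc ∑ k ∈ range D, (∑ c ∈ range D, (x c - ent st.1 0 c) * ent (rMat D st) c k) ^ 2 =
        ∑ k ∈ range D, (aff D (ent st.2.1 (k + 1)) x) ^ 2 :=
          sum_congr rfl fun k hk => by rw [h1 k hk]
      _ ≤ (∑ k ∈ range D, aff D (ent st.2.1 (k + 1)) x) ^ 2 := sum_sq_le_sq_sum_of_nonneg h5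
      _ ≤ st.2.2 ^ 2 := pow_le_pow_left₀ (sum_nonneg h5) h6 2
  have h9 := hflat.trans h4
  set w := ∑ c ∈ range D, ent W (D - 1) c * (x c - ent st.1 0 c) with hw
  have hS := hinv.pos
  have h10 : h0 D * w ^ 2 ≤ 1 := by
    have h11 : st.2.2 ^ 2 * (h0 D * w ^ 2) ≤ st.2.2 ^ 2 * 1 := by
      rw [mul_one, ← mul_assoc]
      exact h9
    exact le_of_mul_le_mul_left h11 (by positivity)
  have h12 := RFLAT_const D hD
  have hh0 : 0 < h0 D := by
    unfold h0
    have := rhoD_pos D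
    positivity
  have h13 : w ^ 2 ≤ (wdh D : ℚ) ^ 2 := by
    have h14 : h0 D * w ^ 2 ≤ h0 D * (wdh D : ℚ) ^ 2 := h10.trans h12
    exact le_of_mul_le_mul_left h14 hh0
  have h15 : |w| ≤ (wdh D : ℚ) := abs_le_of_sq_le_sq h13 (by positivity)
  rw [abs_le] at h15
  have h16 : ∑ c ∈ range D, ent W (D - 1) c * x c =
      w + ∑ c ∈ range D, ent W (D - 1) c * ent st.1 0 c := by
    rw [hw, ← sum_add_distrib]
    exact sum_congr rfl fun c _ => by ring
  have h17 := Int.floor_le (∑ c ∈ range D, ent W (D - 1) c * ent st.1 0 c)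
  have h18 := Int.lt_floor_add_one (∑ c ∈ range D, ent W (D - 1) c * ent st.1 0 c)
  rw [h16]
  unfold rK
  constructor <;> linarith [h15.1, h15.2]

end Pool.HMS
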