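import Pool.Agent.H91.HMS.RLib

/-!
# HMS box 2, module RINNER: the inner simplex
-/

set_option autoImplicit false

namespace Pool.HMS

open TMLib Finset

theorem rinner_thm : S_RINNER := by
  intro D K st hD hinv hconv hK x hx hj
  have hS := hinv.pos
  have hR := RD_pos D
  have hD1 : (0 : ℚ) < (D : ℚ) + 1 := by positivity
  set R := RD D with hRdef
  set S := st.2.2 with hSdef
  set m0 : ℚ := (1 - 1 / R) / (D + 1) with hm0
  have h1 : ∀ b ∈ range (D + 1), 0 ≤ R * (aff D (ent st.2.1 b) x / S - m0) := by
    intro b hb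
    have h2 := hj b hb
    have h3 : m0 ≤ aff D (ent st.2.1 b) x / S := by
      rw [le_div_iff₀ hS]
      exact h2
    exact mul_nonneg hR.le (sub_nonneg.2 h3)
  have h2 : ∑ b ∈ range (D + 1), R * (aff D (ent st.2.1 b) x / S - m0) = 1 := by
    rw [← mul_sum, sum_sub_distrib, ← sum_div, hinv.one x, div_self hS.ne']
    simp only [sum_const, card_range, nsmul_eq_mul]
    rw [hm0]
    push_cast
    field_simp
    ring
  have h3 := hconv.sum_mem h1 h2
    (z := fun b => fn (rShr D st.1 b)) (fun b hb => hK b (by rw [mem_range] at hb; omega))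
  have h4 : ∑ b ∈ range (D + 1), (R * (aff D (ent st.2.1 b) x / S - m0)) •
      fn (rShr D st.1 b) = x := by
    funext i
    rw [Finset.sum_apply]
    by_cases hi : i < D
    · have h5 : ∀ b ∈ range (D + 1), ((R * (aff D (ent st.2.1 b) x / S - m0)) •
          fn (rShr D st.1 b)) i = (R * (aff D (ent st.2.1 b) x / S - m0)) *
            (m0 * ∑ j ∈ range (D + 1), ent st.1 j i) +
            (aff D (ent st.2.1 b) x * ent st.1 b i / S - m0 * ent st.1 b i) := by
        intro b _
        rw [Pi.smul_apply, smul_eq_mul]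
        unfold rShr
        rw [fn_tab, if_pos hi]
        rw [← hRdef, ← hm0]
        field_simp
      rw [sum_congr rfl h5, sum_add_distrib, ← sum_mul, h2, one_mul, sum_sub_distrib, ← sum_div,
        hinv.rep x hx i hi, ← mul_sum, ← hSdef, mul_div_cancel_left₀ _ hS.ne']
      ring
    · push Not at hi
      rw [hx i hi]
      apply sum_eq_zero
      intro b _
      have h6 : fn (rShr D st.1 b) i = 0 := supp_tab D _ i hi
      rw [Pi.smul_apply, h6, smul_zero]
  rw [← h4]
  exact h3

end Pool.HMS
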